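import Pool.Agent.MP_1246c0_nt.H12.SpecN

/-! Short vectors and characters. -/

namespace Pool.Agent.MP_1246c0_nt.H12

open NumberField Finset Polynomial IsDedekindDomain Pool.Agent.MP_db5b97_nt.H85

namespace SH1

section Boxes

variable {R : Type} [CommRing R] {N : ℕ} {e : Fin N → R}

theorem box_mono {L L' : ℕ} (h : L ≤ L') {x : R} (hx : x ∈ Box e L) : x ∈ Box e L' := by
  obtain ⟨a, ha, rfl⟩ := hx
  exact ⟨a, fun j => (ha j).trans (by exact_mod_cast h), rfl⟩

theorem box_zero : (0 : R) ∈ Box e 0 := ⟨0, by simp, by simp⟩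

theorem box_add {L L' : ℕ} {x y : R} (hx : x ∈ Box e L) (hy : y ∈ Box e L') :
    x + y ∈ Box e (L + L') := by
  obtain ⟨a, ha, rfl⟩ := hx
  obtain ⟨b, hb, rfl⟩ := hy
  refine ⟨a + b, fun j => ?_, ?_⟩
  · push_cast
    exact (abs_add_le _ _).trans (add_le_add (ha j) (hb j))
  · simp [add_smul, sum_add_distrib]

theorem box_smul {L : ℕ} (c : ℤ) {x : R} (hx : x ∈ Box e L) :
    c • x ∈ Box e (c.natAbs * L) := by
  obtain ⟨a, ha, rfl⟩ := hx
  refine ⟨fun j => c * a j, fun j => ?_, ?_⟩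
  · push_cast
    rw [abs_mul]
    exact mul_le_mul_of_nonneg_left (ha j) (abs_nonneg _)
  · simp [smul_sum, mul_smul]

theorem box_sum {ι : Type} (s : Finset ι) (f : ι → R) (L : ι → ℕ)
    (h : ∀ i ∈ s, f i ∈ Box e (L i)) : ∑ i ∈ s, f i ∈ Box e (∑ i ∈ s, L i) := by
  classical
  induction s using Finset.induction_on with
  | empty => simpa using box_zero
  | insert a s ha ih =>
    rw [sum_insert ha, sum_insert ha]
    exact box_add (h a (mem_insert_self _ _)) (ih fun i hi => h i (mem_insert_of_mem hi))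

theorem box_basis (j : Fin N) : e j ∈ Box e 1 := by
  classical
  refine ⟨Pi.single j 1, fun i => ?_, ?_⟩
  · by_cases h : i = j
    · subst h; simp
    · simp [h]
  · rw [Finset.sum_eq_single j] <;> simp +contextual

theorem box_pow (t : R) (c : ℕ) (hc : 1 ≤ c) (h : ℕ → ℤ)
    (hh : ∑ j ∈ range N, (h j).natAbs ≤ c) (ht : t ^ N = ∑ j ∈ range N, h j • t ^ j) (m : ℕ) :
    t ^ m ∈ Box (fun j : Fin N => t ^ (j : ℕ)) (c ^ m) := by
  induction m using Nat.strong_induction_on with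
  | _ m ih =>
    by_cases hm : m < N
    · exact box_mono (Nat.one_le_pow _ _ hc)
        (box_basis (e := fun j : Fin N => t ^ (j : ℕ)) ⟨m, hm⟩)
    · obtain ⟨d, rfl⟩ := Nat.exists_eq_add_of_le (not_lt.1 hm)
      have e1 : t ^ (N + d) = ∑ j ∈ range N, h j • t ^ (j + d) := by
        rw [pow_add, ht, sum_mul]
        exact sum_congr rfl fun j _ => by rw [smul_mul_assoc, pow_add]
      rw [e1]
      refine box_mono ?_ (box_sum (range N) _ (fun j => (h j).natAbs * c ^ (j + d))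
        fun j hj => box_smul _ (ih _ (by have := mem_range.1 hj; omega)))
      rcases Nat.eq_zero_or_pos N with h0 | h0
      · subst h0; simp
      calc ∑ j ∈ range N, (h j).natAbs * c ^ (j + d)
          ≤ ∑ j ∈ range N, (h j).natAbs * c ^ (N + d - 1) :=
            sum_le_sum fun j hj => Nat.mul_le_mul_left _
              (Nat.pow_le_pow_right hc (by have := mem_range.1 hj; omega))
        _ ≤ c * c ^ (N + d - 1) := by rw [← sum_mul]; exact Nat.mul_le_mul_right _ hh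
        _ = c ^ (N + d) := by rw [← pow_succ']; congr 1; omega

theorem kit_pow (t : R) (c : ℕ) (hc : 1 ≤ c) (hN : 1 ≤ N) (h : ℕ → ℤ)
    (hh : ∑ j ∈ range N, (h j).natAbs ≤ c) (ht : t ^ N = ∑ j ∈ range N, h j • t ^ j) :
    Kit (fun j : Fin N => t ^ (j : ℕ)) (N * N * c ^ (2 * N)) where
  pos := Nat.mul_pos (Nat.mul_pos hN hN) (Nat.pow_pos hc)
  one := by simpa using box_basis (e := fun j : Fin N => t ^ (j : ℕ)) ⟨0, hN⟩
  mul := by
    rintro L L' x y ⟨a, ha, rfl⟩ ⟨b, hb, rfl⟩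
    have e1 : (∑ j : Fin N, a j • t ^ (j : ℕ)) * ∑ j : Fin N, b j • t ^ (j : ℕ) =
        ∑ i : Fin N, ∑ j : Fin N, (a i * b j) • t ^ ((i : ℕ) + j) := by
      rw [sum_mul_sum]
      exact sum_congr rfl fun i _ => sum_congr rfl fun j _ => by
        rw [smul_mul_smul_comm, pow_add]
    rw [e1]
    have := box_sum (e := fun j : Fin N => t ^ (j : ℕ)) univ
      (fun i : Fin N => ∑ j : Fin N, (a i * b j) • t ^ ((i : ℕ) + j))
      (fun _ => ∑ _j : Fin N, c ^ (2 * N) * L * L') fun i _ =>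
      box_sum univ _ _ fun j _ => box_mono (by
        rw [Int.natAbs_mul]
        have h1 : (a i).natAbs ≤ L := by have := ha i; rw [← Int.natCast_natAbs] at this; omega
        have h2 : (b j).natAbs ≤ L' := by have := hb j; rw [← Int.natCast_natAbs] at this; omega
        have h3 : c ^ ((i : ℕ) + j) ≤ c ^ (2 * N) := Nat.pow_le_pow_right hc (by omega)
        calc (a i).natAbs * (b j).natAbs * c ^ ((i : ℕ) + j) ≤ L * L' * c ^ (2 * N) :=
              Nat.mul_le_mul (Nat.mul_le_mul h1 h2) h3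
          _ = _ := by ring) (box_smul (a i * b j) (box_pow t c hc h hh ht _))
    refine box_mono (le_of_eq ?_) this
    simp only [sum_const, card_univ, Fintype.card_fin, smul_eq_mul]
    ring

end Boxes

theorem sq_l1 (P : ℤ[X]) (c : ℕ) (h : ∀ M, ∑ j ∈ range M, (P.coeff j).natAbs ≤ c) (M : ℕ) :
    ∑ j ∈ range M, ((P * P).coeff j).natAbs ≤ c * c := by
  calc ∑ j ∈ range M, ((P * P).coeff j).natAbs
      ≤ ∑ j ∈ range M, ∑ k ∈ range (j + 1), (P.coeff k).natAbs * (P.coeff (j - k)).natAbs := by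
        refine sum_le_sum fun j _ => ?_
        rw [coeff_mul, Finset.Nat.sum_antidiagonal_eq_sum_range_succ_mk]
        refine (Int.natAbs_sum_le _ _).trans (le_of_eq ?_)
        exact sum_congr rfl fun k _ => Int.natAbs_mul _ _
    _ = ∑ m ∈ range M, ∑ k ∈ range (M - m), (P.coeff m).natAbs * (P.coeff k).natAbs :=
        sum_range_diag_flip M fun a b => (P.coeff a).natAbs * (P.coeff b).natAbs
    _ ≤ ∑ m ∈ range M, (P.coeff m).natAbs * c :=
        sum_le_sum fun m _ => by rw [← mul_sum]; exact Nat.mul_le_mul_left _ (h _)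
    _ ≤ c * c := by rw [← sum_mul]; exact Nat.mul_le_mul_right _ (h _)

theorem exists_poly (n : ℕ) : ∃ P : ℤ[X], P.Monic ∧ P.natDegree = 2 ^ n ∧
    (∀ (R : Type) [CommRing R] (x : R), aeval x P = tw^[n] x) ∧
    ∀ M, ∑ j ∈ range M, (P.coeff j).natAbs ≤ 2 ^ 2 ^ n - 1 := by
  induction n with
  | zero =>
    refine ⟨X, monic_X, by simp, fun R _ x => by simp, fun M => ?_⟩
    calc ∑ j ∈ range M, ((X : ℤ[X]).coeff j).natAbs
        = ∑ j ∈ range M, if j = 1 then 1 else 0 := sum_congr rfl fun j _ => by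
          rw [coeff_X]; by_cases h : j = 1 <;> simp [h, eq_comm]
      _ ≤ _ := by rw [sum_ite_eq']; split_ifs <;> simp
  | succ n ih =>
    obtain ⟨P, hm, hd, he, hl⟩ := ih
    have hd2 : (P * P).natDegree = 2 ^ (n + 1) := by rw [hm.natDegree_mul hm, hd]; ring
    have hlt : (C (2 : ℤ)).natDegree < (P * P).natDegree := by
      rw [hd2, natDegree_C]; positivity
    refine ⟨P * P - C 2, (hm.mul hm).sub_of_left (degree_lt_degree hlt), ?_, fun R _ x => ?_,
      fun M => ?_⟩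
    · rw [natDegree_sub_eq_left_of_natDegree_lt hlt, hd2]
    · rw [Function.iterate_succ_apply', map_sub, map_mul, he, aeval_C, tw, sq]; simp
    · have h2 : 2 ≤ 2 ^ 2 ^ n := by
        calc 2 = 2 ^ 1 := rfl
          _ ≤ _ := Nat.pow_le_pow_right (by norm_num) Nat.one_le_two_pow
      calc ∑ j ∈ range M, ((P * P - C 2).coeff j).natAbs
          ≤ ∑ j ∈ range M, (((P * P).coeff j).natAbs + if j = 0 then 2 else 0) := by
            refine sum_le_sum fun j _ => ?_
            rw [coeff_sub, coeff_C]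
            refine (Int.natAbs_sub_le _ _).trans (le_of_eq ?_)
            split_ifs <;> simp
        _ ≤ (2 ^ 2 ^ n - 1) * (2 ^ 2 ^ n - 1) + 2 := by
            rw [sum_add_distrib]
            refine add_le_add (sq_l1 P _ hl M) ?_
            rw [sum_ite_eq']; split_ifs <;> simp
        _ ≤ 2 ^ 2 ^ (n + 1) - 1 := by
            rw [pow_succ 2 n, pow_mul]
            obtain ⟨b, hb⟩ := Nat.exists_eq_add_of_le h2
            rw [hb]
            have : (2 + b) ^ 2 = (1 + b) * (1 + b) + 2 + 2 * b + 1 := by ring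
            rw [this, show 2 + b - 1 = 1 + b by omega]
            omega

theorem rel_pow (n : ℕ) {R : Type} [CommRing R] (t : R) (ht : tw^[n] t = 0) :
    ∃ h : ℕ → ℤ, ∑ j ∈ range (2 ^ n), (h j).natAbs ≤ 2 ^ 2 ^ n ∧
      t ^ 2 ^ n = ∑ j ∈ range (2 ^ n), h j • t ^ j := by
  obtain ⟨P, hm, hd, he, hl⟩ := exists_poly n
  refine ⟨fun j => -P.coeff j, ?_, ?_⟩
  · simp only [Int.natAbs_neg]
    exact (hl _).trans (Nat.sub_le _ _)
  · have h1 := he R t
    rw [ht, aeval_eq_sum_range, hd, sum_range_succ, ← hd, hm.coeff_natDegree, hd, one_smul] at h1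
    simp only [neg_smul, sum_neg_distrib]
    linear_combination h1

theorem map_tw {R S : Type} [Ring R] [Ring S] (f : R →+* S) (n : ℕ) (x : R) :
    f (tw^[n] x) = tw^[n] (f x) := by
  induction n with
  | zero => rfl
  | succ n ih =>
    rw [Function.iterate_succ_apply', Function.iterate_succ_apply', ← ih, tw, tw, map_sub,
      map_pow, map_ofNat]

theorem norm_le_two (n : ℕ) (z : ℂ) (hz : tw^[n] z = 0) : ‖z‖ ≤ 2 := by
  by_contra h
  push Not at h
  have : ∀ m, 2 < ‖tw^[m] z‖ := by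
    intro m
    induction m with
    | zero => exact h
    | succ m ih =>
      rw [Function.iterate_succ_apply', tw]
      have h1 := norm_sub_norm_le ((tw^[m] z) ^ 2) 2
      rw [norm_pow, Complex.norm_two] at h1
      nlinarith
  have h2 := this n
  rw [hz, norm_zero] at h2
  linarith

theorem vdm {p N : ℕ} [Fact p.Prime] {ι : Type} [Fintype ι] [DecidableEq ι]
    (hι : Fintype.card ι = N) (r : ι → ZMod p) (hr : r.Injective) (f : ZMod p → ℝ)
    (hf : ∑ z, f z = 0) (s : Finset ι) (hs : s.Nonempty) :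
    ∑ a : Fin N → Fin p, ∏ k ∈ s, f (∑ j, ((a j : ℕ) : ZMod p) * r k ^ (j : ℕ)) = 0 := by
  let Ψ : (Fin N → Fin p) → ι → ZMod p := fun a k => ∑ j, ((a j : ℕ) : ZMod p) * r k ^ (j : ℕ)
  have hinj : Ψ.Injective := by
    intro a b hab
    let E := (Fintype.equivFinOfCardEq hι).symm
    have := Matrix.eq_zero_of_forall_index_sum_mul_pow_eq_zero (f := r ∘ E)
      (v := fun j => ((a j : ℕ) : ZMod p) - ((b j : ℕ) : ZMod p)) (hr.comp E.injective) fun j => by
        have := congrFun hab (E j)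
        simp only [Ψ] at this
        simp only [sub_mul, sum_sub_distrib, Function.comp, this, sub_self]
    funext j
    have h1 := sub_eq_zero.1 (congrFun this j)
    rw [ZMod.natCast_eq_natCast_iff', Nat.mod_eq_of_lt (a j).2, Nat.mod_eq_of_lt (b j).2] at h1
    exact Fin.ext h1
  have hbij : Ψ.Bijective := (Fintype.bijective_iff_injective_and_card Ψ).2
    ⟨hinj, by simp [hι, ZMod.card]⟩
  have h1 := hbij.sum_comp fun y : ι → ZMod p => ∏ k ∈ s, f (y k)
  refine h1.trans ?_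
  have h2 : ∀ y : ι → ZMod p, ∏ k ∈ s, f (y k) = ∏ k, if k ∈ s then f (y k) else 1 := fun y => by
    rw [prod_ite_mem, univ_inter]
  simp_rw [h2]
  rw [← Fintype.piFinset_univ, ← prod_univ_sum (fun _ : ι => (univ : Finset (ZMod p)))
    fun k z => if k ∈ s then f z else 1]
  obtain ⟨k, hk⟩ := hs
  exact prod_eq_zero (mem_univ k) (by simp [hk, hf])

theorem pigeon {R : Type} [CommRing R] {N p : ℕ} (hp : p ≠ 0) (hN : N ≠ 0) (e : Fin N → R)
    (ψ : R →+* ZMod p) : ∃ (L : ℕ) (a : Fin N → ℤ), L ^ N ≤ p ∧ a ≠ 0 ∧ (∀ j, |a j| ≤ L) ∧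
      ψ (∑ j, a j • e j) = 0 := by
  have : NeZero p := ⟨hp⟩
  have hex : ∃ L : ℕ, p < (L + 1) ^ N := ⟨p, (Nat.lt_succ_self p).trans_le (Nat.le_self_pow hN _)⟩
  classical
  have h1 := Nat.find_spec hex
  have h2 : Nat.find hex ^ N ≤ p := by
    rcases h : Nat.find hex with _ | L
    · rw [zero_pow hN]; exact Nat.zero_le _
    · exact not_lt.1 (Nat.find_min hex (m := L) (by omega))
  obtain ⟨a, b, hab, h⟩ := Fintype.exists_ne_map_eq_of_card_lt
    (fun a : Fin N → Fin (Nat.find hex + 1) => ψ (∑ j, ((a j : ℕ) : ℤ) • e j))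
    (by simpa [ZMod.card] using h1)
  refine ⟨Nat.find hex, fun j => ((a j : ℕ) : ℤ) - ((b j : ℕ) : ℤ), h2, fun h0 => hab ?_,
    fun j => ?_, ?_⟩
  · funext j
    have := congrFun h0 j
    simp only [Pi.zero_apply] at this
    exact Fin.ext (by omega)
  · have h3 := (a j).2
    have h4 := (b j).2
    beta_reduce
    rw [abs_le]; constructor <;> omega
  · simp only [sub_smul, sum_sub_distrib, map_sub, h, sub_self]

theorem sg_sum {ι : Type} (s : Finset ι) (f : ι → F2) : sg (∑ k ∈ s, f k) = ∏ k ∈ s, sg (f k) := by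
  classical
  have hadd : ∀ x y : F2, sg (x + y) = sg x * sg y := by
    intro x y
    have h2 : (1 : F2) + 1 = 0 := rfl
    have h : ∀ z : F2, z = 0 ∨ z = 1 := by decide
    rcases h x with rfl | rfl <;> rcases h y with rfl | rfl <;> simp [sg, h2]
  induction s using Finset.induction_on with
  | empty => simp [sg]
  | insert a s ha ih => rw [sum_insert ha, prod_insert ha, hadd, ih]

section Field

variable {F : Type} [Field F] [NumberField F] {n : ℕ} {θ : F} {γ : F ≃ₐ[ℚ] F}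

theorem coe_sm (g : F ≃ₐ[ℚ] F) (x : 𝓞 F) : ((g • x : 𝓞 F) : F) = g x := rfl

theorem indep (h : Cy F n θ γ) (a : Fin (2 ^ n) → ℤ) (ha : ∑ j, a j • θ ^ (j : ℕ) = 0) :
    a = 0 := by
  have hd : (minpoly ℚ θ).natDegree = 2 ^ n := by
    rw [← IntermediateField.adjoin.finrank (Algebra.IsIntegral.isIntegral θ), h.gen,
      IntermediateField.finrank_top', h.rk]
  have hl := linearIndependent_pow (K := ℚ) θ
  rw [hd] at hl
  have := Fintype.linearIndependent_iff.1 hl (fun j => (a j : ℚ)) (by simpa [Algebra.smul_def] using ha)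
  funext j
  exact_mod_cast this j

theorem norm_box (h : Cy F n θ γ) (t : 𝓞 F) (ht : (t : F) = θ) (L : ℕ) (x : 𝓞 F)
    (hx : x ∈ Box (fun j : Fin (2 ^ n) => t ^ (j : ℕ)) L) :
    |Algebra.norm ℤ x| ≤ 2 ^ (3 * (2 ^ n) ^ 2) * L ^ 2 ^ n := by
  have hrk := h.rk
  generalize 2 ^ n = N at hx hrk ⊢
  obtain ⟨a, ha, hx⟩ := hx
  have h1 := Algebra.norm_eq_prod_embeddings ℚ ℂ (x : F)
  rw [← Algebra.coe_norm_int] at h1
  have h2 : ∀ σ : F →ₐ[ℚ] ℂ, ‖σ x‖ ≤ 2 ^ (3 * N) * L := by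
    intro σ
    have hθ : ‖σ θ‖ ≤ 2 := norm_le_two n _ (by
      have := map_tw σ.toRingHom n θ
      rw [h.root, map_zero] at this
      exact this.symm)
    have e1 : σ x = ∑ j : Fin N, (a j : ℂ) * σ θ ^ (j : ℕ) := by
      simp [hx, ← ht]
    rw [e1]
    calc ‖∑ j : Fin N, (a j : ℂ) * σ θ ^ (j : ℕ)‖ ≤ ∑ _j : Fin N, (L : ℝ) * 2 ^ N := by
          refine norm_sum_le_of_le _ fun j _ => ?_
          rw [norm_mul, norm_pow, Complex.norm_intCast]
          refine mul_le_mul (by exact_mod_cast ha j) ?_ (by positivity) (by positivity)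
          exact (pow_le_pow_left₀ (norm_nonneg _) hθ _).trans
            (pow_le_pow_right₀ one_le_two j.2.le)
      _ = N * 2 ^ N * L := by simp; ring
      _ ≤ 2 ^ N * 2 ^ N * L := by
          gcongr
          exact_mod_cast Nat.lt_two_pow_self.le
      _ ≤ 2 ^ (3 * N) * L := by
          rw [← pow_add]
          gcongr
          · norm_num
          · omega
  have h3 : ‖((Algebra.norm ℤ x : ℤ) : ℂ)‖ ≤ (2 ^ (3 * N) * L) ^ N := by
    have : ((Algebra.norm ℤ x : ℤ) : ℂ) = ∏ σ : F →ₐ[ℚ] ℂ, σ x := by rw [← h1]; simp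
    rw [this, norm_prod]
    refine (prod_le_prod (fun _ _ => norm_nonneg _) fun σ _ => h2 σ).trans (le_of_eq ?_)
    rw [prod_const, card_univ, AlgHom.card, hrk]
  rw [Complex.norm_intCast, mul_pow, ← pow_mul, show 3 * N * N = 3 * N ^ 2 by ring] at h3
  exact_mod_cast h3

theorem dvd_norm [IsGalois ℚ F] {p : ℕ} (ψ : 𝓞 F →+* ZMod p) (g : F ≃ₐ[ℚ] F) (x : 𝓞 F)
    (h : ψ (g • x) = 0) : (p : ℤ) ∣ Algebra.norm ℤ x := by
  have h1 := Algebra.norm_eq_prod_automorphisms ℚ (x : F)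
  rw [← Algebra.coe_norm_int] at h1
  have h2 : ((Algebra.norm ℤ x : ℤ) : 𝓞 F) = ∏ σ : F ≃ₐ[ℚ] F, σ • x := by
    apply RingOfIntegers.coe_injective
    rw [map_prod, map_intCast]
    simpa [coe_sm] using h1
  rw [← ZMod.intCast_zmod_eq_zero_iff_dvd, ← map_intCast ψ, h2, map_prod]
  exact prod_eq_zero (mem_univ g) h

theorem res_inj (hC : SCY) (h : Cy F n θ γ) (t : 𝓞 F) (ht : (t : F) = θ) {p : ℕ} [hp : Fact p.Prime]
    (h2 : p ≠ 2) (ψ : 𝓞 F →+* ZMod p) :
    Function.Injective fun k : ZMod (2 ^ n) => ψ (γ⁻¹ ^ k.val • t) := by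
  intro k k' hk
  obtain ⟨-, hgen, hord, -⟩ := hC.gal F n θ γ h
  let ψ' : 𝓞 F →+* ZMod p := ψ.comp (MulSemiringAction.toRingHom _ _ (γ⁻¹ ^ k.val))
  have hψ' : ∀ x, ψ' x = ψ (γ⁻¹ ^ k.val • x) := fun _ => rfl
  let w : Pr F 2 := ⟨⟨RingHom.ker ψ', RingHom.ker_isPrime _, fun h0 => by
    have : (p : 𝓞 F) ∈ RingHom.ker ψ' := by simp
    rw [h0, Ideal.mem_bot] at this
    exact hp.1.ne_zero (by exact_mod_cast this)⟩, by
    intro h0
    have h1 : ((2 : ℕ) : ZMod p) = 0 := (map_natCast ψ' 2).symm.trans h0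
    rw [ZMod.natCast_eq_zero_iff] at h1
    exact h2 ((Nat.prime_dvd_prime_iff_eq hp.1 Nat.prime_two).1 h1)⟩
  obtain ⟨m, hm⟩ := hgen ((γ⁻¹ ^ k.val)⁻¹ * γ⁻¹ ^ k'.val)
  have h3 : γ ^ m = 1 := by
    refine hC.dist F n θ γ h w m ?_
    have e1 : (γ ^ m) θ - θ = algebraMap (𝓞 F) F (γ ^ m • t - t) := by
      rw [map_sub, ← ht]; rfl
    rw [e1, HeightOneSpectrum.valuation_lt_one_iff_mem]
    change ψ' (γ ^ m • t - t) = 0
    rw [map_sub, hψ', hψ', ← hm, smul_smul, mul_inv_cancel_left]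
    exact sub_eq_zero.2 hk.symm
  rw [h3, inv_mul_eq_one, inv_pow, inv_pow, inv_inj] at hm
  apply ZMod.val_injective
  exact pow_injOn_Iio_orderOf (by rw [hord]; exact ZMod.val_lt k)
    (by rw [hord]; exact ZMod.val_lt k') hm

end Field

end SH1

open SH1 in
theorem rowSH1 : OfSH1 := by
  intro hC _ hQ _ n D
  obtain ⟨hG, -, -, hint⟩ := hC.gal D.F n D.θ D.γ D.cy
  let t : 𝓞 D.F := ⟨D.θ, hint⟩
  have ht : (t : D.F) = D.θ := rfl
  have hroot : tw^[n] t = 0 := by
    apply RingOfIntegers.coe_injective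
    rw [map_tw, map_zero]
    exact D.cy.root
  obtain ⟨h, hh, hrel⟩ := rel_pow n t hroot
  have hα : ∀ p, ∃ α : 𝓞 D.F, Gd n p → D.φ p α = 0 ∧ α ≠ 0 ∧
      |Algebra.norm ℤ α| ≤ 2 ^ (3 * (2 ^ n) ^ 2) * p ∧
        ∃ L, α ∈ Box (fun j : Fin (2 ^ n) => t ^ (j : ℕ)) L ∧ L ^ 2 ^ n ≤ p := by
    intro p
    by_cases hp : Gd n p
    swap
    · exact ⟨0, fun h => absurd h hp⟩
    obtain ⟨ψ, hψ, -⟩ := D.hom p hp
    obtain ⟨L, a, hL, ha0, ha, h0⟩ := pigeon hp.1.ne_zero (N := 2 ^ n) (by positivity)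
      (fun j : Fin (2 ^ n) => t ^ (j : ℕ)) ψ
    refine ⟨_, fun _ => ⟨(hψ _).trans h0, fun hz => ha0 (indep D.cy a ?_), ?_, L, ⟨a, ha, rfl⟩, hL⟩⟩
    · have := congrArg (algebraMap (𝓞 D.F) D.F) hz
      simpa [← ht] using this
    · refine (norm_box D.cy t ht L _ ⟨a, ha, rfl⟩).trans ?_
      gcongr
      exact_mod_cast hL
  choose α hα using hα
  refine ⟨fun j => t ^ (j : ℕ), _, α,
    kit_pow t _ Nat.one_le_two_pow Nat.one_le_two_pow h hh hrel, ?_, hα, ?_, fun s hs => ?_⟩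
  · have h1 : 2 ^ n ≤ 2 ^ 2 ^ n := Nat.lt_two_pow_self.le
    have h2 : 1 ≤ 2 ^ n := Nat.one_le_two_pow
    generalize 2 ^ n = N at h1 h2 ⊢
    calc N * N * (2 ^ N) ^ (2 * N) ≤ 2 ^ N * 2 ^ N * (2 ^ N) ^ (2 * N) := by gcongr
      _ = 2 ^ (N + N + N * (2 * N)) := by rw [← pow_mul, ← pow_add, ← pow_add]
      _ ≤ _ := Nat.pow_le_pow_right (by norm_num) (by nlinarith)
  · intro p k x hp h0
    obtain ⟨ψ, hψ, -⟩ := D.hom p hp
    exact dvd_norm ψ _ x ((hψ _).symm.trans h0)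
  · have hχ : ∀ p, ∃ χ : 𝓞 D.F → ℝ, Gd n p →
        Chr (fun j : Fin (2 ^ n) => t ^ (j : ℕ)) χ p ∧
        ∀ x, (∀ k : ZMod (2 ^ n), D.φ p (D.γ⁻¹ ^ k.val • x) ≠ 0) →
          χ x = sg (∑ k ∈ s, D.sy p x k) := by
      intro p
      by_cases hp : Gd n p
      swap
      · exact ⟨0, fun h => absurd h hp⟩
      obtain ⟨ψ, hψ, -⟩ := D.hom p hp
      have : Fact p.Prime := ⟨hp.1⟩
      refine ⟨fun x => ∏ k ∈ s, ((quadraticChar (ZMod p) (ψ (D.γ⁻¹ ^ k.val • x)) : ℤ) : ℝ),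
        fun _ => ⟨⟨fun x y => ?_, fun x => ?_, fun x y => ?_, ?_⟩, fun x hx => ?_⟩⟩
      · simp only [smul_mul', map_mul, Int.cast_mul, prod_mul_distrib]
      · rw [abs_prod]
        refine prod_le_one (fun _ _ => abs_nonneg _) fun k _ => ?_
        rcases quadraticChar_isQuadratic (ZMod p) (ψ (D.γ⁻¹ ^ k.val • x)) with h | h | h <;>
          rw [h] <;> simp
      · refine prod_congr rfl fun k _ => ?_
        have : D.γ⁻¹ ^ k.val • (x + p * y) = D.γ⁻¹ ^ k.val • x + p * D.γ⁻¹ ^ k.val • y := by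
          rw [smul_add, ← nsmul_eq_mul, ← nsmul_eq_mul, smul_comm]
        rw [this, map_add, map_mul, map_natCast, ZMod.natCast_self, zero_mul, add_zero]
      · have := vdm (N := 2 ^ n) (ZMod.card _) _ (res_inj hC D.cy t ht hp.2.1 ψ)
          (fun z => ((quadraticChar (ZMod p) z : ℤ) : ℝ)) (by
            rw [← Int.cast_sum, quadraticChar_sum_zero (by rw [ZMod.ringChar_zmod_n]; exact hp.2.1),
              Int.cast_zero]) s hs
        refine Eq.trans (sum_congr rfl fun a _ => prod_congr rfl fun k _ => ?_) this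
        congr 2
        rw [smul_sum, map_sum]
        refine sum_congr rfl fun j _ => ?_
        rw [smul_comm, smul_pow', natCast_zsmul, nsmul_eq_mul, map_mul, map_natCast, map_pow]
      · rw [sg_sum]
        refine prod_congr rfl fun k _ => ?_
        rw [Dat.sy, hQ.sg p _ (hx k), hψ]
    choose χ hχ using hχ
    exact ⟨χ, hχ⟩

end Pool.Agent.MP_1246c0_nt.H12
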