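import Pool.Agent.MP_1246c0_nt.H25.SpecG

/-! Independent signs. -/

namespace Pool.Agent.MP_1246c0_nt.H25

open Finset Real
open Pool.Agent.MP_1246c0_nt.H12

namespace HOE

theorem abs_sg (a : F2) : |sg a| = 1 := by
  unfold sg
  split_ifs <;> simp

theorem abs_ind (p : Prop) : |ind p| ≤ 1 := by
  unfold ind
  split_ifs <;> simp

theorem two (c : ℝ) (a : F2) : exp (c * sg a) + exp (c * sg (a + 1)) = 2 * cosh c := by
  rw [cosh_eq]
  fin_cases a
  · change exp (c * 1) + exp (c * -1) = _
    ring_nf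
  · change exp (c * -1) + exp (c * 1) = _
    ring_nf

variable {Γ X : Type} [AddCommGroup Γ] [Fintype Γ] {L : X → Γ → F2} {T : Finset X}
  (hL : ∀ x a b, L x (a + b) = L x a + L x b)
  (hT : ∀ x ∈ T, ∃ g, L x g = 1 ∧ ∀ x' ∈ T, x' ≠ x → L x' g = 0) (F : X → F2)
include hL hT

theorem mom (c : X → ℝ) :
    ∑ G, ∏ x ∈ T, exp (c x * sg (F x + L x G)) = Fintype.card Γ * ∏ x ∈ T, cosh (c x) := by
  classical
  induction T using Finset.induction_on with
  | empty => simp
  | insert x T hx ih =>
    obtain ⟨g, g1, g2⟩ := hT x (mem_insert_self _ _)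
    have e := Equiv.sum_comp (Equiv.addRight g)
      fun G => ∏ x ∈ insert x T, exp (c x * sg (F x + L x G))
    have e' : ∀ G, ∏ x ∈ T, exp (c x * sg (F x + L x (G + g))) =
        ∏ x ∈ T, exp (c x * sg (F x + L x G)) := fun G => prod_congr rfl fun y hy => by
      rw [hL, g2 y (mem_insert_of_mem hy) fun h => hx (h ▸ hy), add_zero]
    simp only [prod_insert hx, Equiv.coe_addRight, e'] at e ⊢
    refine mul_left_cancel₀ two_ne_zero ?_
    rw [mul_left_comm (Fintype.card Γ : ℝ), ← ih fun y hy => (hT y (mem_insert_of_mem hy)).imp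
      fun _ h => ⟨h.1, fun z hz => h.2 z (mem_insert_of_mem hz)⟩, two_mul, ← mul_assoc, mul_sum]
    nth_rw 2 [← e]
    rw [← sum_add_distrib]
    exact sum_congr rfl fun G _ => by rw [← add_mul, hL, g1, ← add_assoc, two]

theorem mom' {y : X → ℝ} (hy : ∀ x, |y x| ≤ 1) (t : ℝ) :
    ∑ G, exp (t * ∑ x ∈ T, y x * sg (F x + L x G)) ≤
      Fintype.card Γ * exp (T.card * (t ^ 2 / 2)) := by
  simp only [mul_sum, exp_sum, ← mul_assoc]
  rw [mom hL hT, exp_nat_mul, ← prod_const]
  refine mul_le_mul_of_nonneg_left (prod_le_prod (fun x _ => (cosh_pos _).le) fun x _ =>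
    (cosh_le_exp_half_sq _).trans (exp_le_exp.2 ?_)) (Nat.cast_nonneg _)
  nlinarith [(sq_le_one_iff_abs_le_one _).2 (hy x), sq_nonneg t]

theorem tail {y : X → ℝ} (hy : ∀ x, |y x| ≤ 1) {t s : ℝ} (ht : 0 ≤ t) (E : Γ → Prop)
    (hE : ∀ G, E G → s ≤ |∑ x ∈ T, y x * sg (F x + L x G)|) :
    (Nat.card {G // E G} : ℝ) ≤ 2 * exp (T.card * (t ^ 2 / 2) - t * s) * Nat.card Γ := by
  classical
  have h1 := mom' hL hT F hy t
  have h2 := mom' hL hT F hy (-t)
  have h3 : (Nat.card {G // E G} : ℝ) * exp (t * s) ≤ ∑ G, (exp (t * ∑ x ∈ T,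
      y x * sg (F x + L x G)) + exp (-t * ∑ x ∈ T, y x * sg (F x + L x G))) := by
    rw [Nat.card_eq_fintype_card, Fintype.card_subtype, ← nsmul_eq_mul, ← sum_const]
    refine (sum_le_sum fun G hG => ?_).trans (sum_le_sum_of_subset_of_nonneg (filter_subset _ _)
      fun _ _ _ => by positivity)
    rcases le_abs.1 (hE G (mem_filter.1 hG).2) with h | h
    · exact (exp_le_exp.2 (mul_le_mul_of_nonneg_left h ht)).trans
        (le_add_of_nonneg_right (exp_pos _).le)
    · exact (exp_le_exp.2 ((mul_le_mul_of_nonneg_left h ht).trans_eq (by ring))).trans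
        (le_add_of_nonneg_left (exp_pos _).le)
  rw [sum_add_distrib] at h3
  rw [neg_sq] at h2
  rw [exp_sub, ← mul_div_assoc, div_mul_eq_mul_div, le_div_iff₀ (exp_pos _),
    Nat.card_eq_fintype_card (α := Γ)]
  linarith

end HOE

open HOE in
theorem rowHOE : SHOE := by
  intro k n M Ka η lam A ix Y F hη h0 hM
  classical
  let T : Finset (Option (Fin k) → Fin M) := univ.filter fun x => ∀ i o, x o ≠ A i o
  have h1 : (Tᶜ.card : ℝ) ≤ (k + 1) * Ka * M ^ k := by
    have : Tᶜ ⊆ univ.biUnion fun q : Option (Fin k) × Fin Ka =>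
        (Fintype.piFinset fun _ => univ).filter fun x => x q.1 = A q.2 q.1 := fun x hx => by
      simpa [T, exists_comm (α := Fin Ka)] using hx
    have := (card_le_card this).trans (card_biUnion_le_card_mul _ _ (M ^ k) fun q _ =>
      (Fintype.card_filter_piFinset_eq_of_mem (fun _ => univ) q.1 (mem_univ _)).trans_le (by simp))
    simp only [card_univ, Fintype.card_prod, Fintype.card_option, Fintype.card_fin] at this
    exact_mod_cast this
  have h2 : (T.card : ℝ) ≤ M ^ (k + 1) := by
    have := card_le_univ T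
    simp only [Fintype.card_fun, Fintype.card_option, Fintype.card_fin] at this
    exact_mod_cast this
  refine (tail (L := fun x G => Hg lam G (A (ix x)) x) (T := T) (fun x a b => ?_)
    (fun x hx => ?_) F (fun x => abs_ind (Y x = 1)) (half_pos hη).le (s := η * M ^ (k + 1) / 2) _
    fun G hG => ?_).trans (mul_le_mul_of_nonneg_right (mul_le_mul_of_nonneg_left (exp_le_exp.2 ?_)
      two_pos.le) (Nat.cast_nonneg _))
  · simp only [Hg, ← sum_add_distrib, Pi.add_apply]
    exact sum_congr rfl fun _ _ => by ring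
  · have hx' := fun i o => ((mem_filter.1 hx).2 i o).symm
    have key : ∀ y, Hg lam (Pi.single (x none) (Pi.single
        (0, fun p => if p.2 = x (some p.1) then 1 else 0) 1)) (A (ix y)) y =
        if y = x then 1 else 0 := fun y => by
      rw [Hg, sum_eq_single (0, fun p => if p.2 = x (some p.1) then 1 else 0) (fun ξ _ h => by
        simp [Pi.single_apply, ite_apply, h]) (by simp)]
      simp only [Pi.single_apply, ite_apply, hx', h0, if_false, zero_add, mul_one, if_true,
        Pi.zero_apply, prod_boole, mul_ite, mul_zero, ← ite_and, mem_univ, forall_true_left]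
      exact if_congr (funext_iff.trans Option.forall).symm rfl rfl
    exact ⟨_, (key x).trans (if_pos rfl), fun y _ h => (key y).trans (if_neg h)⟩
  · rw [← sum_add_sum_compl T] at hG
    have e1 := hG.trans_le (abs_add_le _ _)
    have e2 := (abs_sum_le_sum_abs _ _).trans (sum_le_card_nsmul Tᶜ
      (fun x => |ind (Y x = 1) * sg (F x + Hg lam G (A (ix x)) x)|) 1 fun x _ => by
        rw [abs_mul, abs_sg, mul_one]; exact abs_ind _)
    rw [nsmul_eq_mul, mul_one] at e2
    have e3 := mul_le_mul_of_nonneg_right hM (show (0 : ℝ) ≤ M ^ k by positivity)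
    rw [pow_succ'] at e1 ⊢
    linarith
  · nlinarith [mul_le_mul_of_nonneg_right h2 (sq_nonneg η)]

end Pool.Agent.MP_1246c0_nt.H25
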