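import Pool.Agent.MP_1246c0_nt.H25.SpecR

/-! Reduction to small quotients and to fields. -/

namespace Pool.Agent.MP_1246c0_nt.H25

open Polynomial Finset Matrix Module
open Pool.Agent.MP_1246c0_nt.H12

namespace QUO

variable {ι G G' : Type} [Fintype ι] [DecidableEq ι] [AddCommGroup G] [Module F2 G]
  [AddCommGroup G'] [Module F2 G'] {S : Matrix ι ι F2} {e : ι → F2} {P O : Finset ι} {b : Bool}
  {u : Module.End F2 G} {g : ι → G}

theorem slo (π : G →ₗ[F2] G') {u' : Module.End F2 G'} (h : ∀ x, π (u x) = u' (π x))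
    (s : Slo S e P O b u g) : Slo S e P O b u' fun l => π (g l) := by
  have x : ∀ l, xv P b u' (fun l => π (g l)) l = π (xv P b u g l) := fun l => by
    simp only [xv, apply_ite π, h]
  refine ⟨fun l => ?_, ?_⟩
  · simpa [ap, rvo, x, apply_ite π, h] using congrArg π (s.1 l)
  · simpa [x] using congrArg π s.2

omit [Fintype ι] [DecidableEq ι] in
theorem gen (π : G →ₗ[F2] G') (hπ : Function.Surjective π) {u' : Module.End F2 G'}
    (h : ∀ x, π (u x) = u' (π x)) (s : Gen u g) : Gen u' fun l => π (g l) := fun W h1 h2 => by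
  have := s (W.comap π) (fun w hw => by rw [Submodule.mem_comap, h]; exact h1 _ hw) h2
  rw [← Submodule.map_comap_eq_of_surjective hπ W, this, Submodule.map_top,
    LinearMap.range_eq_top.2 hπ]

theorem fin [Module.Finite F2 G] (s : Slo S e P O b u g) (t : Gen u g) :
    ∃ (u : Module.End F2 (Fin (finrank F2 G) → F2)) (g : ι → Fin (finrank F2 G) → F2),
      Slo S e P O b u g ∧ Gen u g :=
  have h : ∀ x, (finBasis F2 G).equivFun.toLinearMap (u x) =
    (finBasis F2 G).equivFun.conj u ((finBasis F2 G).equivFun.toLinearMap x) := fun x => by simp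
  ⟨_, _, slo _ h s, gen _ (finBasis F2 G).equivFun.surjective h t⟩

variable {n : ℕ} {K : Type} [Field K] [Algebra F2 K] {A : Matrix (Fin n) (Fin n) F2} {ρ : K}

theorem dt (h : aeval ρ A.charpoly = 0) : (scalar _ ρ - A.map (algebraMap F2 K)).det = 0 := by
  rw [← eval_charpoly, charpoly_map, eval_map_algebraMap, h]

theorem left (h : aeval ρ A.charpoly = 0) :
    ∃ φ : (Fin n → F2) →ₗ[F2] K, φ ≠ 0 ∧ ∀ x, φ (A *ᵥ x) = ρ * φ x := by
  obtain ⟨w, w0, hw⟩ := exists_vecMul_eq_zero_iff.2 (dt h)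
  refine ⟨Fintype.linearCombination F2 w, fun z => w0 (funext fun i => by
    simpa using DFunLike.congr_fun z (Pi.single i 1)), fun x => ?_⟩
  have : ∀ j, ∑ i, A i j • w i = ρ * w j := fun j => by
    have := congrFun hw j
    rw [vecMul_sub, scalar_apply, Pi.sub_apply, vecMul_diagonal, Pi.zero_apply, sub_eq_zero] at this
    rw [mul_comm, this]
    exact sum_congr rfl fun i _ => (Algebra.smul_def _ _).trans (mul_comm _ _)
  simp only [Fintype.linearCombination_apply, mulVec, dotProduct, sum_smul, mul_sum]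
  rw [sum_comm]
  exact sum_congr rfl fun j _ => by
    simp only [mul_smul_comm, ← this, smul_sum, mul_comm (A _ j), mul_smul]

theorem right [Module.Finite F2 K] (h : aeval ρ A.charpoly = 0) :
    ∃ W : Submodule F2 (Fin n → F2), W ≠ ⊥ ∧ finrank F2 W ≤ finrank F2 K ∧
      ∀ x ∈ W, A *ᵥ x ∈ W := by
  obtain ⟨w, w0, hw⟩ := exists_mulVec_eq_zero_iff.2 (dt h)
  refine ⟨LinearMap.range (LinearMap.pi fun i => Dual.eval F2 K (w i)), fun z => w0 (funext
    fun i => (forall_dual_apply_eq_zero_iff F2 _).1 fun φ =>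
      congrFun (DFunLike.congr_fun (LinearMap.range_eq_bot.1 z) φ) i),
    (LinearMap.finrank_range_le _).trans Subspace.dual_finrank_eq.le, ?_⟩
  rintro _ ⟨φ, rfl⟩
  refine ⟨φ ∘ₗ LinearMap.mulLeft F2 ρ, funext fun i => ?_⟩
  have := congrFun hw i
  rw [sub_mulVec, scalar_apply, Pi.sub_apply, mulVec_diagonal, Pi.zero_apply, sub_eq_zero] at this
  change φ (ρ * w i) = ∑ j, A i j • φ (w j)
  rw [this, mulVec, dotProduct, map_sum]
  exact sum_congr rfl fun j _ => by rw [← map_smul, Algebra.smul_def, map_apply]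

omit [AddCommGroup G] [Module F2 G] in
theorem flip {σ : K} (h0 : σ ≠ 0) (hO : O ⊆ P) {y : ι → K} (y0 : y ≠ 0)
    (s : Slo S e P O true (LinearMap.mulLeft F2 σ⁻¹) y) :
    ∃ y : ι → K, y ≠ 0 ∧ Slo S e P O false (LinearMap.mulLeft F2 σ) y := by
  have x : ∀ y : ι → K, xv P false (LinearMap.mulLeft F2 σ) y = y := fun y => funext fun l => by
    simp [xv]
  refine ⟨xv P true (LinearMap.mulLeft F2 σ⁻¹) y, fun z => y0 (funext fun l => ?_), fun l => ?_,
    by rw [x]; exact s.2⟩
  · have := congrFun z l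
    by_cases h : l ∈ P <;> simpa [xv, h, h0] using this
  · have : ∑ l' ∈ O, xv P true (LinearMap.mulLeft F2 σ⁻¹) y l' = ∑ l' ∈ O, σ⁻¹ * y l' :=
      sum_congr rfl fun l' h => if_pos ⟨hO h, rfl⟩
    rw [x, s.1, rvo, rvo, this]
    by_cases h : l ∈ P <;> simp [xv, h, h0, mul_add, mul_sum]

theorem main {γ f : ℕ} (h1 : 1 ≤ γ) (h2 : γ ≤ f) (hO : O ⊆ P) (n : ℕ) : γ ≤ n →
    (∃ (u : Module.End F2 (Fin n → F2)) (g : ι → Fin n → F2), Slo S e P O b u g ∧ Gen u g) →
    (∃ γ' ∈ Icc γ (γ + f), ∃ (u : Module.End F2 (Fin γ' → F2)) (g : ι → Fin γ' → F2),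
      Slo S e P O b u g ∧ Gen u g) ∨ Bdo S e P O (f + 1) := by
  induction n using Nat.strong_induction_on with | _ n ih => ?_
  rintro hn ⟨u, g, s, t⟩
  rcases le_or_gt n (γ + f) with h | h
  · exact Or.inl ⟨n, mem_Icc.2 ⟨hn, h⟩, u, g, s, t⟩
  obtain ⟨A, rfl⟩ := toLin'.surjective u
  obtain ⟨r, hr⟩ := IsAlgClosed.exists_aeval_eq_zero (AlgebraicClosure F2) A.charpoly (by
    rw [charpoly_degree_eq_dim, Fintype.card_fin]
    exact_mod_cast (by omega : n ≠ 0))
  have hi := Algebra.IsIntegral.isIntegral (R := F2) (if b then r⁻¹ else r)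
  have hp := minpoly.irreducible hi
  have ha := minpoly.aeval F2 (if b then r⁻¹ else r)
  generalize minpoly F2 (if b then r⁻¹ else r) = p at hp ha
  have := Fact.mk hp
  have := (AdjoinRoot.powerBasis hp.ne_zero).finite
  have hρ : aeval (if b then (AdjoinRoot.root p)⁻¹ else AdjoinRoot.root p) A.charpoly = 0 := by
    let j := AdjoinRoot.liftAlgHom p (Algebra.ofId F2 _) _ ha
    refine j.injective (?_ : j _ = j 0)
    rw [map_zero, ← aeval_algHom_apply, ← hr]
    cases b <;> simp [j]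
  rcases le_or_gt p.natDegree f with d | d
  · obtain ⟨W, w1, w2, w3⟩ := right hρ
    rw [(AdjoinRoot.powerBasis hp.ne_zero).finrank, AdjoinRoot.powerBasis_dim] at w2
    have w4 := W.finrank_quotient_add_finrank
    have w5 := Submodule.finrank_eq_zero.not.2 w1
    rw [finrank_fin_fun] at w4
    exact ih _ (by omega) (by omega) (fin (slo W.mkQ (u' := W.mapQ W (toLin' A) w3) (fun _ => rfl) s)
      (gen W.mkQ W.mkQ_surjective (fun _ => rfl) t))
  · obtain ⟨φ, φ0, hφ⟩ := left hρ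
    have y0 : (fun l => φ (g l)) ≠ 0 := fun z => φ0 (LinearMap.ker_eq_top.1 (t _
      (fun w hw => (hφ w).trans (by rw [LinearMap.mem_ker.1 hw, mul_zero])) (congrFun z)))
    have s' := slo φ (u' := LinearMap.mulLeft F2 _) hφ s
    refine Or.inr ⟨p, hp, d, ?_⟩
    cases b
    · exact ⟨_, y0, s'⟩
    · refine flip (fun z => ?_) hO y0 s'
      have := natDegree_le_of_dvd (AdjoinRoot.mk_eq_zero.1 z) X_ne_zero
      rw [natDegree_X] at this
      omega

end QUO

theorem rowQUO : SQUO := by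
  rintro ι _ _ S e P O b γ f h1 h2 hO ⟨G, _, _, _, u, g, h, s, t⟩
  refine QUO.main h1 h2 hO _ ?_ (QUO.fin s t)
  rwa [natCard_eq_pow_finrank (K := F2), Nat.card_zmod, Nat.pow_le_pow_iff_right one_lt_two] at h

end Pool.Agent.MP_1246c0_nt.H25
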